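import Mathlib

/-!
Short cycles in the reconfiguration graph of minimal dominating sets.
-/

set_option autoImplicit false

namespace Pool.Agent.X51.Rec

open Finset

variable {V : Type*} [DecidableEq V] (G : SimpleGraph V)

/-- `D` dominates `W` -/
def Dom (W D : Finset V) : Prop := ∀ y ∈ W, y ∈ D ∨ ∃ x ∈ D, G.Adj x y

/-- `D` is a minimal dominating set of `G[W]` -/
def MD (W D : Finset V) : Prop := D ⊆ W ∧ Dom G W D ∧ ∀ x ∈ D, ¬ Dom G W (D.erase x)

/-- adjacency in the reconfiguration graph -/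
def AR (A B : Finset V) : Prop :=
  ∃ v, (B \ A = {v} ∧ ∀ x ∈ A \ B, G.Adj v x) ∨ (A \ B = {v} ∧ ∀ x ∈ B \ A, G.Adj v x)

/-- maximal independent sets of `G[W]` -/
def Mis (W M : Finset V) : Prop := M ⊆ W ∧ (∀ x ∈ M, ∀ y ∈ M, ¬ G.Adj x y) ∧ Dom G W M

/-- there is a cycle of length `3`, `4` or `5` -/
def SC (W : Finset V) : Prop :=
  (∃ A B C, MD G W A ∧ MD G W B ∧ MD G W C ∧ AR G A B ∧ AR G B C ∧ AR G C A) ∨
  (∃ A B C D, MD G W A ∧ MD G W B ∧ MD G W C ∧ MD G W D ∧ AR G A B ∧ AR G B C ∧ AR G C D ∧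
    AR G D A ∧ A ≠ C ∧ B ≠ D) ∨
  (∃ A B C D E, MD G W A ∧ MD G W B ∧ MD G W C ∧ MD G W D ∧ MD G W E ∧ AR G A B ∧ AR G B C ∧
    AR G C D ∧ AR G D E ∧ AR G E A ∧ A ≠ C ∧ A ≠ D ∧ B ≠ D ∧ B ≠ E ∧ C ≠ E)

/-- all edges in `W` share a vertex -/
def InF (W : Finset V) : Prop := ∃ c, ∀ x ∈ W, ∀ y ∈ W, G.Adj x y → x = c ∨ y = c

variable {G}

lemma AR.symm {A B : Finset V} (h : AR G A B) : AR G B A := by
  obtain ⟨v, h1 | h1⟩ := h
  · exact ⟨v, Or.inr h1⟩
  · exact ⟨v, Or.inl h1⟩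

lemma Mis.md {W M : Finset V} (h : Mis G W M) : MD G W M := by
  refine ⟨h.1, h.2.2, fun x hx hd => ?_⟩
  rcases hd x (h.1 hx) with h1 | ⟨y, hy, h1⟩
  · exact Finset.notMem_erase _ _ h1
  · exact h.2.1 y (Finset.mem_of_mem_erase hy) x hx h1

/-- extension of an independent set -/
lemma ext_mis (W : Finset V) : ∀ (t : ℕ) (S : Finset V), W.card - S.card = t → S ⊆ W →
    (∀ x ∈ S, ∀ y ∈ S, ¬ G.Adj x y) → ∃ M, Mis G W M ∧ S ⊆ M := by
  intro t
  induction t using Nat.strong_induction_on with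
  | _ t ih =>
    intro S ht hS hind
    by_cases hd : Dom G W S
    · exact ⟨S, ⟨hS, hind, hd⟩, Finset.Subset.refl _⟩
    · unfold Dom at hd
      push Not at hd
      obtain ⟨y, hy, hy1, hy2⟩ := hd
      have hle : (insert y S).card ≤ W.card := Finset.card_le_card (Finset.insert_subset hy hS)
      rw [Finset.card_insert_of_notMem hy1] at hle
      obtain ⟨M, hM, hSM⟩ := ih (W.card - (insert y S).card) (by
        rw [Finset.card_insert_of_notMem hy1]
        omega) (insert y S) rfl (Finset.insert_subset hy hS) (by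
          intro a ha b hb
          rcases Finset.mem_insert.mp ha with ha' | ha'
          · rcases Finset.mem_insert.mp hb with hb' | hb'
            · rw [ha', hb']
              exact G.loopless.irrefl _
            · rw [ha']
              exact fun h => hy2 b hb' h.symm
          · rcases Finset.mem_insert.mp hb with hb' | hb'
            · rw [hb']
              exact hy2 a ha'
            · exact hind a ha' b hb')
      exact ⟨M, hM, (Finset.subset_insert _ _).trans hSM⟩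

lemma ext1 {W : Finset V} {a : V} (ha : a ∈ W) : ∃ M, Mis G W M ∧ a ∈ M := by
  obtain ⟨M, h1, h2⟩ := ext_mis (G := G) W _ {a} rfl (Finset.singleton_subset_iff.mpr ha) (by
    intro x hx y hy
    rw [Finset.mem_singleton] at hx hy
    rw [hx, hy]
    exact G.loopless.irrefl _)
  exact ⟨M, h1, h2 (Finset.mem_singleton_self _)⟩

lemma ext2 {W : Finset V} {a b : V} (ha : a ∈ W) (hb : b ∈ W) (hab : ¬ G.Adj a b) :
    ∃ M, Mis G W M ∧ a ∈ M ∧ b ∈ M := by
  obtain ⟨M, h1, h2⟩ := ext_mis (G := G) W _ {a, b} rfl (by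
    intro x hx
    rcases Finset.mem_insert.mp hx with rfl | hx
    · exact ha
    · rw [Finset.mem_singleton] at hx
      rw [hx]
      exact hb) (by
    intro x hx y hy
    rw [Finset.mem_insert, Finset.mem_singleton] at hx hy
    rcases hx with rfl | rfl
    · rcases hy with rfl | rfl
      · exact G.loopless.irrefl _
      · exact hab
    · rcases hy with rfl | rfl
      · exact fun h => hab h.symm
      · exact G.loopless.irrefl _)
  exact ⟨M, h1, h2 (Finset.mem_insert_self _ _),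
    h2 (Finset.mem_insert_of_mem (Finset.mem_singleton_self _))⟩

lemma Mis.exists_notMem {W M M' : Finset V} (h : Mis G W M) (h' : Mis G W M') (hne : M ≠ M') :
    ∃ p ∈ M, p ∉ M' := by
  by_contra hcon
  push Not at hcon
  apply hne
  refine Finset.Subset.antisymm hcon fun y hy => ?_
  rcases h.2.2 y (h'.1 hy) with h1 | ⟨x, hx, h1⟩
  · exact h1
  · exact absurd h1 (h'.2.1 x (hcon x hx) y hy)

/-- lifting of minimal dominating sets -/
lemma MD.lift [DecidableRel G.Adj] {W D : Finset V} {w : V} (hw : w ∈ W)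
    (h : MD G (W.filter fun y => y ≠ w ∧ ¬ G.Adj w y) D) : w ∉ D ∧ MD G W (insert w D) := by
  obtain ⟨h1, h2, h3⟩ := h
  have hD : ∀ x ∈ D, x ∈ W ∧ x ≠ w ∧ ¬ G.Adj w x := fun x hx => Finset.mem_filter.mp (h1 hx)
  have hwD : w ∉ D := fun h' => (hD w h').2.1 rfl
  refine ⟨hwD, Finset.insert_subset hw (fun x hx => (hD x hx).1), fun y hy => ?_, fun x hx hd => ?_⟩
  · by_cases hyw : y = w
    · rw [hyw]
      exact Or.inl (Finset.mem_insert_self _ _)
    · by_cases hadj : G.Adj w y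
      · exact Or.inr ⟨w, Finset.mem_insert_self _ _, hadj⟩
      · rcases h2 y (Finset.mem_filter.mpr ⟨hy, hyw, hadj⟩) with h4 | ⟨x, hx, h4⟩
        · exact Or.inl (Finset.mem_insert_of_mem h4)
        · exact Or.inr ⟨x, Finset.mem_insert_of_mem hx, h4⟩
  · rcases Finset.mem_insert.mp hx with rfl | hx
    · rw [Finset.erase_insert hwD] at hd
      rcases hd x hw with h4 | ⟨y, hy, h4⟩
      · exact hwD h4
      · exact (hD y hy).2.2 h4.symm
    · apply h3 x hx
      intro y hy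
      obtain ⟨hy1, hy2, hy3⟩ := Finset.mem_filter.mp hy
      rcases hd y hy1 with h4 | ⟨z, hz, h4⟩
      · obtain ⟨h5, h6⟩ := Finset.mem_erase.mp h4
        rcases Finset.mem_insert.mp h6 with h7 | h7
        · exact absurd h7 hy2
        · exact Or.inl (Finset.mem_erase.mpr ⟨h5, h7⟩)
      · obtain ⟨h5, h6⟩ := Finset.mem_erase.mp hz
        rcases Finset.mem_insert.mp h6 with h7 | h7
        · rw [h7] at h4
          exact absurd h4 hy3
        · exact Or.inr ⟨z, Finset.mem_erase.mpr ⟨h5, h7⟩, h4⟩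

lemma insert_sdiff_insert' {A B : Finset V} {w : V} (hA : w ∉ A) :
    insert w A \ insert w B = A \ B := by
  ext x
  simp only [Finset.mem_sdiff, Finset.mem_insert]
  constructor
  · rintro ⟨h1 | h1, h2⟩
    · exact absurd (Or.inl h1) h2
    · exact ⟨h1, fun h => h2 (Or.inr h)⟩
  · rintro ⟨h1, h2⟩
    refine ⟨Or.inr h1, ?_⟩
    rintro (h3 | h3)
    · exact hA (h3 ▸ h1)
    · exact h2 h3

lemma AR.lift {A B : Finset V} {w : V} (hA : w ∉ A) (hB : w ∉ B) (h : AR G A B) :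
    AR G (insert w A) (insert w B) := by
  unfold AR
  rw [insert_sdiff_insert' hA, insert_sdiff_insert' hB]
  exact h

lemma ne_lift {A B : Finset V} {w : V} (hA : w ∉ A) (hB : w ∉ B) (h : A ≠ B) :
    insert w A ≠ insert w B := by
  intro h'
  apply h
  rw [← Finset.erase_insert hA, h', Finset.erase_insert hB]

lemma SC.lift [DecidableRel G.Adj] {W : Finset V} {w : V} (hw : w ∈ W)
    (h : SC G (W.filter fun y => y ≠ w ∧ ¬ G.Adj w y)) : SC G W := by
  rcases h with ⟨A, B, C, hA, hB, hC, h1, h2, h3⟩ | ⟨A, B, C, D, hA, hB, hC, hD, h1, h2, h3, h4, n1,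
    n2⟩ | ⟨A, B, C, D, E, hA, hB, hC, hD, hE, h1, h2, h3, h4, h5, n1, n2, n3, n4, n5⟩
  · obtain ⟨a1, a2⟩ := hA.lift hw
    obtain ⟨b1, b2⟩ := hB.lift hw
    obtain ⟨c1, c2⟩ := hC.lift hw
    exact Or.inl ⟨_, _, _, a2, b2, c2, h1.lift a1 b1, h2.lift b1 c1, h3.lift c1 a1⟩
  · obtain ⟨a1, a2⟩ := hA.lift hw
    obtain ⟨b1, b2⟩ := hB.lift hw
    obtain ⟨c1, c2⟩ := hC.lift hw
    obtain ⟨d1, d2⟩ := hD.lift hw
    exact Or.inr (Or.inl ⟨_, _, _, _, a2, b2, c2, d2, h1.lift a1 b1, h2.lift b1 c1, h3.lift c1 d1,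
      h4.lift d1 a1, ne_lift a1 c1 n1, ne_lift b1 d1 n2⟩)
  · obtain ⟨a1, a2⟩ := hA.lift hw
    obtain ⟨b1, b2⟩ := hB.lift hw
    obtain ⟨c1, c2⟩ := hC.lift hw
    obtain ⟨d1, d2⟩ := hD.lift hw
    obtain ⟨e1, e2⟩ := hE.lift hw
    exact Or.inr (Or.inr ⟨_, _, _, _, _, a2, b2, c2, d2, e2, h1.lift a1 b1, h2.lift b1 c1,
      h3.lift c1 d1, h4.lift d1 e1, h5.lift e1 a1, ne_lift a1 c1 n1, ne_lift a1 d1 n2,
      ne_lift b1 d1 n3, ne_lift b1 e1 n4, ne_lift c1 e1 n5⟩)

lemma ar_single {M : Finset V} {y : V} (hy : y ∉ M) (h : ∀ m ∈ M, G.Adj y m) : AR G {y} M := by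
  refine ⟨y, Or.inr ⟨?_, fun x hx => h x (Finset.mem_sdiff.mp hx).1⟩⟩
  ext z
  simp only [Finset.mem_sdiff, Finset.mem_singleton]
  constructor
  · exact fun h => h.1
  · rintro rfl
    exact ⟨rfl, hy⟩

lemma ar_pair {M : Finset V} {x y : V} (hx : x ∈ M) (hy : y ∉ M)
    (h : ∀ m ∈ M, m ≠ x → G.Adj y m) : AR G {x, y} M := by
  refine ⟨y, Or.inr ⟨?_, fun z hz => ?_⟩⟩
  · ext z
    simp only [Finset.mem_sdiff, Finset.mem_insert, Finset.mem_singleton]
    constructor
    · rintro ⟨rfl | rfl, h2⟩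
      · exact absurd hx h2
      · rfl
    · rintro rfl
      exact ⟨Or.inr rfl, hy⟩
  · obtain ⟨h1, h2⟩ := Finset.mem_sdiff.mp hz
    exact h z h1 (fun h3 => h2 (h3 ▸ Finset.mem_insert_self _ _))

lemma md_single {W : Finset V} {y : V} (hy : y ∈ W) (h : Dom G W {y}) : MD G W {y} := by
  refine ⟨Finset.singleton_subset_iff.mpr hy, h, fun x hx hd => ?_⟩
  rw [Finset.mem_singleton] at hx
  rw [hx, Finset.erase_singleton] at hd
  rcases hd y hy with h1 | ⟨z, hz, -⟩
  · exact absurd h1 (Finset.notMem_empty _)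
  · exact absurd hz (Finset.notMem_empty _)

lemma md_pair {W : Finset V} {x y : V} (hx : x ∈ W) (hy : y ∈ W) (hxy : x ≠ y)
    (h : Dom G W {x, y}) (h1 : ¬ Dom G W {x}) (h2 : ¬ Dom G W {y}) : MD G W {x, y} := by
  refine ⟨?_, h, fun z hz hd => ?_⟩
  · intro z hz
    rcases Finset.mem_insert.mp hz with rfl | hz
    · exact hx
    · rw [Finset.mem_singleton] at hz
      rw [hz]
      exact hy
  · rcases Finset.mem_insert.mp hz with rfl | hz
    · rw [Finset.erase_insert (by simpa using hxy)] at hd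
      exact h2 hd
    · rw [Finset.mem_singleton] at hz
      rw [hz, Finset.pair_comm, Finset.erase_insert (by simpa using hxy.symm)] at hd
      exact h1 hd

end Pool.Agent.X51.Rec
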