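import Pool.Agent.X51.Rec.Main

/-!
Cycles of small length in a graph.
-/

set_option autoImplicit false
set_option linter.unusedSimpArgs false

namespace Pool.Agent.X51.Rec

variable {X : Type*} {H : SimpleGraph X}

lemma cyc3 {a b c : X} (h1 : H.Adj a b) (h2 : H.Adj b c) (h3 : H.Adj c a) :
    ∃ v, ∃ w : H.Walk v v, w.IsCycle ∧ w.length ≤ 5 := by
  have n1 := h1.ne
  have n2 := h2.ne
  have n3 := h3.ne
  refine ⟨a, .cons h1 (.cons h2 (.cons h3 .nil)), ?_, by simp⟩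
  rw [SimpleGraph.Walk.cons_isCycle_iff]
  constructor
  · rw [SimpleGraph.Walk.isPath_def]
    simp [n1, n2, n3, n1.symm, n2.symm, n3.symm]
  · simp [n1, n2, n3, n1.symm, n2.symm, n3.symm]

lemma cyc4 {a b c d : X} (h1 : H.Adj a b) (h2 : H.Adj b c) (h3 : H.Adj c d) (h4 : H.Adj d a)
    (n5 : a ≠ c) (n6 : b ≠ d) : ∃ v, ∃ w : H.Walk v v, w.IsCycle ∧ w.length ≤ 5 := by
  have n1 := h1.ne
  have n2 := h2.ne
  have n3 := h3.ne
  have n4 := h4.ne
  refine ⟨a, .cons h1 (.cons h2 (.cons h3 (.cons h4 .nil))), ?_, by simp⟩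
  rw [SimpleGraph.Walk.cons_isCycle_iff]
  constructor
  · rw [SimpleGraph.Walk.isPath_def]
    simp [n1, n2, n3, n4, n5, n6, n1.symm, n2.symm, n3.symm, n4.symm, n5.symm, n6.symm]
  · simp [n1, n2, n3, n4, n5, n6, n1.symm, n2.symm, n3.symm, n4.symm, n5.symm, n6.symm]

lemma cyc5 {a b c d e : X} (h1 : H.Adj a b) (h2 : H.Adj b c) (h3 : H.Adj c d) (h4 : H.Adj d e)
    (h5 : H.Adj e a) (n6 : a ≠ c) (n7 : a ≠ d) (n8 : b ≠ d) (n9 : b ≠ e) (n10 : c ≠ e) :
    ∃ v, ∃ w : H.Walk v v, w.IsCycle ∧ w.length ≤ 5 := by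
  have n1 := h1.ne
  have n2 := h2.ne
  have n3 := h3.ne
  have n4 := h4.ne
  have n5 := h5.ne
  refine ⟨a, .cons h1 (.cons h2 (.cons h3 (.cons h4 (.cons h5 .nil)))), ?_, by simp⟩
  rw [SimpleGraph.Walk.cons_isCycle_iff]
  constructor
  · rw [SimpleGraph.Walk.isPath_def]
    simp [n1, n2, n3, n4, n5, n6, n7, n8, n9, n10, n1.symm, n2.symm, n3.symm, n4.symm, n5.symm,
      n6.symm, n7.symm, n8.symm, n9.symm, n10.symm]
  · simp [n1, n2, n3, n4, n5, n6, n7, n8, n9, n10, n1.symm, n2.symm, n3.symm, n4.symm, n5.symm,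
      n6.symm, n7.symm, n8.symm, n9.symm, n10.symm]

lemma acyclic_of_two (h : ∀ a b c : X, a = b ∨ a = c ∨ b = c) : H.IsAcyclic := by
  intro v w hw
  have h1 := hw.three_le_length
  have h2 := hw.support_nodup
  have h3 : w.support.tail.length = w.length := by simp
  rw [← h3] at h1
  rcases hl : w.support.tail with _ | ⟨a, _ | ⟨b, _ | ⟨c, t⟩⟩⟩
  · rw [hl] at h1
    simp at h1
  · rw [hl] at h1
    simp at h1
  · rw [hl] at h1
    simp at h1
  · rw [hl] at h2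
    simp only [List.nodup_cons, List.mem_cons, not_or] at h2
    rcases h a b c with h4 | h4 | h4
    · exact h2.1.1 h4
    · exact h2.1.2.1 h4
    · exact h2.2.1.1 h4

end Pool.Agent.X51.Rec
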