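import Pool.Agent.X51.Rec.Basic

/-!
If the edges of `G` do not share a vertex, the reconfiguration graph has a short cycle.
-/

set_option autoImplicit false

namespace Pool.Agent.X51.Rec

open Finset

variable {V : Type*} [DecidableEq V] {G : SimpleGraph V}

/-- the two maximal independent sets through a vertex -/
lemma form {W : Finset V} {w c : V} [DecidableRel G.Adj]
    (hc : ∀ x ∈ W.filter (fun y => y ≠ w ∧ ¬ G.Adj w y),
      ∀ y ∈ W.filter (fun y => y ≠ w ∧ ¬ G.Adj w y), G.Adj x y → x = c ∨ y = c)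
    {M : Finset V} (hM : Mis G W M) (hwM : w ∈ M) :
    (c ∈ M ∧ c ≠ w ∧ ∀ y, y ∈ M ↔ y = w ∨ (y ∈ W ∧ y ≠ w ∧ ¬ G.Adj w y ∧ ¬ G.Adj c y)) ∨
    (∀ y, y ∈ M ↔ y = w ∨ (y ∈ W ∧ y ≠ w ∧ ¬ G.Adj w y ∧ y ≠ c)) := by
  have hsub : ∀ y ∈ M, y ≠ w → y ∈ W.filter (fun y => y ≠ w ∧ ¬ G.Adj w y) := fun y hy hyw =>
    Finset.mem_filter.mpr ⟨hM.1 hy, hyw, hM.2.1 w hwM y hy⟩
  have hdom : ∀ y ∈ W.filter (fun y => y ≠ w ∧ ¬ G.Adj w y), y ∉ M →
      ∃ m ∈ M, m ∈ W.filter (fun y => y ≠ w ∧ ¬ G.Adj w y) ∧ G.Adj m y := by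
    intro y hy hyM
    obtain ⟨h1, h2, h3⟩ := Finset.mem_filter.mp hy
    rcases hM.2.2 y h1 with h4 | ⟨m, hm, h4⟩
    · exact absurd h4 hyM
    · have hmw : m ≠ w := by
        rintro rfl
        exact h3 h4
      exact ⟨m, hm, hsub m hm hmw, h4⟩
  by_cases hcM : c ∈ M ∧ c ≠ w
  · left
    refine ⟨hcM.1, hcM.2, fun y => ⟨fun hy => ?_, ?_⟩⟩
    · by_cases hyw : y = w
      · exact Or.inl hyw
      · exact Or.inr ⟨hM.1 hy, hyw, hM.2.1 w hwM y hy, hM.2.1 c hcM.1 y hy⟩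
    · rintro (rfl | ⟨h1, h2, h3, h4⟩)
      · exact hwM
      · by_contra hyM
        obtain ⟨m, hm, hm2, hm3⟩ := hdom y (Finset.mem_filter.mpr ⟨h1, h2, h3⟩) hyM
        rcases hc m hm2 y (Finset.mem_filter.mpr ⟨h1, h2, h3⟩) hm3 with h5 | h5
        · rw [h5] at hm3
          exact h4 hm3
        · rw [h5] at hyM
          exact hyM hcM.1
  · right
    refine fun y => ⟨fun hy => ?_, ?_⟩
    · by_cases hyw : y = w
      · exact Or.inl hyw
      · refine Or.inr ⟨hM.1 hy, hyw, hM.2.1 w hwM y hy, fun h => ?_⟩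
        rw [h] at hy hyw
        exact hcM ⟨hy, hyw⟩
    · rintro (rfl | ⟨h1, h2, h3, h4⟩)
      · exact hwM
      · by_contra hyM
        obtain ⟨m, hm, hm2, hm3⟩ := hdom y (Finset.mem_filter.mpr ⟨h1, h2, h3⟩) hyM
        rcases hc m hm2 y (Finset.mem_filter.mpr ⟨h1, h2, h3⟩) hm3 with h5 | h5
        · rw [h5] at hm hm2
          exact hcM ⟨hm, (Finset.mem_filter.mp hm2).2.1⟩
        · exact h4 h5

/-- data of a minimal situation -/
structure Min (G : SimpleGraph V) (W : Finset V) : Prop where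
  adj : ∀ M M', Mis G W M → Mis G W M' → M ≠ M' → ∀ w ∈ M, w ∈ M' → AR G M M'
  three : ∀ M₁ M₂ M₃, Mis G W M₁ → Mis G W M₂ → Mis G W M₃ → ∀ w ∈ M₁, w ∈ M₂ → w ∈ M₃ →
    M₁ = M₂ ∨ M₁ = M₃ ∨ M₂ = M₃

lemma min_of {W : Finset V} [DecidableRel G.Adj]
    (h : ∀ w ∈ W, InF G (W.filter fun y => y ≠ w ∧ ¬ G.Adj w y)) : Min G W where
  adj M M' hM hM' hne w hw hw' := by
    obtain ⟨c, hc⟩ := h w (hM.1 hw)
    have key : ∀ M M', Mis G W M → Mis G W M' → w ∈ M → w ∈ M' →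
        (c ∈ M ∧ c ≠ w ∧ ∀ y, y ∈ M ↔ y = w ∨ (y ∈ W ∧ y ≠ w ∧ ¬ G.Adj w y ∧ ¬ G.Adj c y)) →
        (∀ y, y ∈ M' ↔ y = w ∨ (y ∈ W ∧ y ≠ w ∧ ¬ G.Adj w y ∧ y ≠ c)) → AR G M M' := by
      intro M M' hM hM' hw hw' ⟨h1, h2, h3⟩ h4
      have hcM' : c ∉ M' := by
        rw [h4]
        rintro (h5 | h5)
        · exact h2 h5
        · exact h5.2.2.2 rfl
      refine ⟨c, Or.inr ⟨?_, ?_⟩⟩
      · ext y
        rw [Finset.mem_sdiff, Finset.mem_singleton]
        constructor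
        · rintro ⟨h5, h6⟩
          by_contra hyc
          apply h6
          rw [h4]
          rcases (h3 y).mp h5 with h7 | h7
          · exact Or.inl h7
          · exact Or.inr ⟨h7.1, h7.2.1, h7.2.2.1, hyc⟩
        · rintro rfl
          exact ⟨h1, hcM'⟩
      · intro y hy
        obtain ⟨h5, h6⟩ := Finset.mem_sdiff.mp hy
        by_contra h7
        apply h6
        rw [h3]
        rcases (h4 y).mp h5 with h8 | h8
        · exact Or.inl h8
        · exact Or.inr ⟨h8.1, h8.2.1, h8.2.2.1, h7⟩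
    rcases form hc hM hw with h1 | h1
    · rcases form hc hM' hw' with h2 | h2
      · exfalso
        apply hne
        ext y
        rw [h1.2.2, h2.2.2]
      · exact key M M' hM hM' hw hw' h1 h2
    · rcases form hc hM' hw' with h2 | h2
      · exact (key M' M hM' hM hw' hw h2 h1).symm
      · exfalso
        apply hne
        ext y
        rw [h1, h2]
  three M₁ M₂ M₃ hM₁ hM₂ hM₃ w hw₁ hw₂ hw₃ := by
    obtain ⟨c, hc⟩ := h w (hM₁.1 hw₁)
    rcases form hc hM₁ hw₁ with h1 | h1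
    · rcases form hc hM₂ hw₂ with h2 | h2
      · left
        ext y
        rw [h1.2.2, h2.2.2]
      · rcases form hc hM₃ hw₃ with h3 | h3
        · right; left
          ext y
          rw [h1.2.2, h3.2.2]
        · right; right
          ext y
          rw [h2, h3]
    · rcases form hc hM₂ hw₂ with h2 | h2
      · rcases form hc hM₃ hw₃ with h3 | h3
        · right; right
          ext y
          rw [h2.2.2, h3.2.2]
        · right; left
          ext y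
          rw [h1, h3]
      · left
        ext y
        rw [h1, h2]

/-- three maximal independent sets in a row -/
lemma caseA {W : Finset V} (h : Min G W) {M₁ M₂ M₃ : Finset V} (hM₁ : Mis G W M₁)
    (hM₂ : Mis G W M₂) (hM₃ : Mis G W M₃) (n12 : M₁ ≠ M₂) (n23 : M₂ ≠ M₃) (n13 : M₁ ≠ M₃)
    {x y : V} (hx1 : x ∈ M₁) (hx2 : x ∈ M₂) (hy2 : y ∈ M₂) (hy3 : y ∈ M₃) : SC G W := by
  have a12 := h.adj _ _ hM₁ hM₂ n12 x hx1 hx2
  have a23 := h.adj _ _ hM₂ hM₃ n23 y hy2 hy3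
  by_cases h13 : ∃ z ∈ M₁, z ∈ M₃
  · obtain ⟨z, hz1, hz3⟩ := h13
    exact Or.inl ⟨_, _, _, hM₁.md, hM₂.md, hM₃.md, a12, a23,
      (h.adj _ _ hM₁ hM₃ n13 z hz1 hz3).symm⟩
  push Not at h13
  obtain ⟨p, hp1, hp2⟩ := hM₁.exists_notMem hM₂ n12
  obtain ⟨q, hq3, hq2⟩ := hM₃.exists_notMem hM₂ n23.symm
  have hq1 : q ∉ M₁ := fun h' => h13 q h' hq3
  have hp3 : p ∉ M₃ := h13 p hp1
  have key4 : ∀ M₄, Mis G W M₄ → M₄ ≠ M₁ → M₄ ≠ M₂ → M₄ ≠ M₃ → (∃ a ∈ M₁, a ∈ M₄) →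
      (∃ b ∈ M₃, b ∈ M₄) → SC G W := by
    intro M₄ hM₄ n41 n42 n43 ⟨a, ha1, ha4⟩ ⟨b, hb3, hb4⟩
    exact Or.inr (Or.inl ⟨M₁, M₂, M₃, M₄, hM₁.md, hM₂.md, hM₃.md, hM₄.md, a12, a23,
      h.adj _ _ hM₃ hM₄ n43.symm b hb3 hb4, h.adj _ _ hM₄ hM₁ n41 a ha4 ha1, n13, n42.symm⟩)
  have hpW := hM₁.1 hp1
  have hqW := hM₃.1 hq3
  have hneq : ∀ {A B : Finset V} {a : V}, a ∈ A → a ∉ B → A ≠ B := by
    rintro A B a h1 h2 rfl
    exact h2 h1
  -- everything in `M₁` is adjacent to `q`, or done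
  by_cases hq : ∃ m ∈ M₁, ¬ G.Adj m q
  · obtain ⟨m, hm1, hm2⟩ := hq
    obtain ⟨M₄, hM₄, hm4, hq4⟩ := ext2 (hM₁.1 hm1) hqW hm2
    exact key4 M₄ hM₄ (hneq hq4 hq1) (hneq hq4 hq2) (hneq hm4 (h13 m hm1)) ⟨m, hm1, hm4⟩
      ⟨q, hq3, hq4⟩
  push Not at hq
  by_cases hp : ∃ m ∈ M₃, ¬ G.Adj m p
  · obtain ⟨m, hm1, hm2⟩ := hp
    obtain ⟨M₄, hM₄, hm4, hp4⟩ := ext2 (hM₃.1 hm1) hpW hm2
    exact key4 M₄ hM₄ (hneq hm4 (fun h' => h13 m h' hm1)) (hneq hp4 hp2) (hneq hp4 hp3)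
      ⟨p, hp1, hp4⟩ ⟨m, hm1, hm4⟩
  push Not at hp
  by_cases hd : Dom G W {p, q}
  · have hmd : MD G W {p, q} := by
      refine md_pair hpW hqW (fun h' => hq1 (h' ▸ hp1)) hd ?_ ?_
      · intro h'
        rcases h' x (hM₁.1 hx1) with h1 | ⟨z, hz, h1⟩
        · rw [Finset.mem_singleton] at h1
          exact hp2 (h1 ▸ hx2)
        · rw [Finset.mem_singleton] at hz
          rw [hz] at h1
          exact hM₁.2.1 p hp1 x hx1 h1
      · intro h'
        rcases h' y (hM₃.1 hy3) with h1 | ⟨z, hz, h1⟩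
        · rw [Finset.mem_singleton] at h1
          exact hq2 (h1 ▸ hy2)
        · rw [Finset.mem_singleton] at hz
          rw [hz] at h1
          exact hM₃.2.1 q hq3 y hy3 h1
    have e1 : AR G {p, q} M₁ := ar_pair hp1 hq1 (fun m hm _ => (hq m hm).symm)
    have e3 : AR G {p, q} M₃ := by
      rw [Finset.pair_comm]
      exact ar_pair hq3 hp3 (fun m hm _ => (hp m hm).symm)
    refine Or.inr (Or.inl ⟨M₁, M₂, M₃, {p, q}, hM₁.md, hM₂.md, hM₃.md, hmd, a12, a23, e3.symm, e1,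
      n13, ?_⟩)
    rintro rfl
    exact hp2 (Finset.mem_insert_self _ _)
  · unfold Dom at hd
    push Not at hd
    obtain ⟨y', hy', h1, h2⟩ := hd
    have h3 : ¬ G.Adj p y' := h2 p (Finset.mem_insert_self _ _)
    have h4 : ¬ G.Adj q y' := h2 q (Finset.mem_insert_of_mem (Finset.mem_singleton_self _))
    have hy1 : y' ∉ M₁ := fun h' => h4 (hq y' h').symm
    have hy3' : y' ∉ M₃ := fun h' => h3 (hp y' h').symm
    obtain ⟨M₄, hM₄, hp4, hy4⟩ := ext2 hpW hy' h3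
    obtain ⟨M₅, hM₅, hq5, hy5⟩ := ext2 hqW hy' h4
    have n41 : M₄ ≠ M₁ := hneq hy4 hy1
    have n42 : M₄ ≠ M₂ := hneq hp4 hp2
    have n51 : M₅ ≠ M₁ := hneq hq5 hq1
    have n52 : M₅ ≠ M₂ := hneq hq5 hq2
    have n53 : M₅ ≠ M₃ := hneq hy5 hy3'
    have n43 : M₄ ≠ M₃ := hneq hp4 hp3
    have n45 : M₄ ≠ M₅ := by
      rintro rfl
      exact hM₄.2.1 p hp4 q hq5 (hq p hp1)
    refine Or.inr (Or.inr ⟨M₁, M₂, M₃, M₅, M₄, hM₁.md, hM₂.md, hM₃.md, hM₅.md, hM₄.md, a12, a23,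
      h.adj _ _ hM₃ hM₅ n53.symm q hq3 hq5, h.adj _ _ hM₅ hM₄ n45.symm y' hy5 hy4,
      h.adj _ _ hM₄ hM₁ n41 p hp4 hp1, n13, n51.symm, n52.symm, n42.symm, n43.symm⟩)

/-- two intersecting maximal independent sets, and no others meeting them -/
lemma caseB {W : Finset V} [DecidableRel G.Adj] (h : Min G W) (hF : ¬ InF G W)
    (hw : ∀ w ∈ W, InF G (W.filter fun y => y ≠ w ∧ ¬ G.Adj w y)) {M₁ M₂ : Finset V}
    (hM₁ : Mis G W M₁) (hM₂ : Mis G W M₂) (n12 : M₁ ≠ M₂) {x : V} (hx1 : x ∈ M₁) (hx2 : x ∈ M₂)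
    (hno : ∀ M₃, Mis G W M₃ → M₃ ≠ M₁ → M₃ ≠ M₂ → ∀ z ∈ M₃, z ∉ M₁ ∧ z ∉ M₂) : SC G W := by
  have a12 := h.adj _ _ hM₁ hM₂ n12 x hx1 hx2
  obtain ⟨p, hp1, hp2⟩ := hM₁.exists_notMem hM₂ n12
  have hneq : ∀ {A B : Finset V} {a : V}, a ∈ A → a ∉ B → A ≠ B := by
    rintro A B a h1 h2 rfl
    exact h2 h1
  by_cases hex : ∃ y ∈ W, y ∉ M₁ ∧ y ∉ M₂
  · obtain ⟨y, hyW, hy1, hy2⟩ := hex
    have hadj : ∀ z m, z ∈ W → z ∉ M₁ → z ∉ M₂ → m ∈ W → (m ∈ M₁ ∨ m ∈ M₂) → G.Adj z m := by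
      intro z m hz hz1 hz2 hm hm12
      by_contra hcon
      obtain ⟨M₄, hM₄, hz4, hm4⟩ := ext2 hz hm hcon
      have := hno M₄ hM₄ (hneq hz4 hz1) (hneq hz4 hz2) m hm4
      rcases hm12 with h' | h'
      · exact this.1 h'
      · exact this.2 h'
    have hy1' : ∀ m ∈ M₁, G.Adj y m := fun m hm => hadj y m hyW hy1 hy2 (hM₁.1 hm) (Or.inl hm)
    have hy2' : ∀ m ∈ M₂, G.Adj y m := fun m hm => hadj y m hyW hy1 hy2 (hM₂.1 hm) (Or.inr hm)
    by_cases hd : Dom G W {y}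
    · exact Or.inl ⟨{y}, M₁, M₂, md_single hyW hd, hM₁.md, hM₂.md, ar_single hy1 hy1', a12,
        (ar_single hy2 hy2').symm⟩
    · have hxy : x ≠ y := fun h' => hy1 (h' ▸ hx1)
      have hmd : MD G W {x, y} := by
        refine md_pair (hM₁.1 hx1) hyW hxy ?_ ?_ hd
        · intro z hz
          by_cases hz1 : z ∈ M₁
          · exact Or.inr ⟨y, Finset.mem_insert_of_mem (Finset.mem_singleton_self _), hy1' z hz1⟩
          · by_cases hz2 : z ∈ M₂
            · exact Or.inr ⟨y, Finset.mem_insert_of_mem (Finset.mem_singleton_self _), hy2' z hz2⟩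
            · exact Or.inr ⟨x, Finset.mem_insert_self _ _,
                (hadj z x hz hz1 hz2 (hM₁.1 hx1) (Or.inl hx1)).symm⟩
        · intro h'
          rcases h' p (hM₁.1 hp1) with h1 | ⟨z, hz, h1⟩
          · rw [Finset.mem_singleton] at h1
            exact hp2 (h1 ▸ hx2)
          · rw [Finset.mem_singleton] at hz
            rw [hz] at h1
            exact hM₁.2.1 x hx1 p hp1 h1
      exact Or.inl ⟨{x, y}, M₁, M₂, hmd, hM₁.md, hM₂.md,
        ar_pair hx1 hy1 (fun m hm _ => hy1' m hm), a12,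
        (ar_pair hx2 hy2 (fun m hm _ => hy2' m hm)).symm⟩
  · exfalso
    push Not at hex
    have hx : ∀ z ∈ W, ¬ G.Adj x z := by
      intro z hz
      by_cases hz1 : z ∈ M₁
      · exact hM₁.2.1 x hx1 z hz1
      · exact hM₂.2.1 x hx2 z (hex z hz hz1)
    apply hF
    obtain ⟨c, hc⟩ := hw x (hM₁.1 hx1)
    refine ⟨c, fun a ha b hb hab => ?_⟩
    refine hc a (Finset.mem_filter.mpr ⟨ha, ?_, hx a ha⟩) b
      (Finset.mem_filter.mpr ⟨hb, ?_, hx b hb⟩) hab
    · rintro rfl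
      exact hx b hb hab
    · rintro rfl
      exact hx a ha hab.symm

/-- pairwise disjoint maximal independent sets -/
lemma caseC [Nonempty V] {W : Finset V} (hF : ¬ InF G W)
    (hdis : ∀ M M', Mis G W M → Mis G W M' → M ≠ M' → ∀ w ∈ M, w ∉ M') : SC G W := by
  have hneq : ∀ {A B : Finset V} {a : V}, a ∈ A → a ∉ B → A ≠ B := by
    rintro A B a h1 h2 rfl
    exact h2 h1
  have hadj : ∀ M, Mis G W M → ∀ a ∈ M, ∀ b ∈ W, b ∉ M → G.Adj a b := by
    intro M hM a ha b hb hbM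
    by_contra hcon
    obtain ⟨M₄, hM₄, ha4, hb4⟩ := ext2 (hM.1 ha) hb hcon
    exact hdis M M₄ hM hM₄ (hneq hb4 hbM).symm a ha ha4
  obtain ⟨p, hp, q, hq, hpq⟩ : ∃ p ∈ W, ∃ q ∈ W, G.Adj p q := by
    by_contra hcon
    push Not at hcon
    apply hF
    obtain ⟨c⟩ := ‹Nonempty V›
    exact ⟨c, fun x hx y hy h => absurd h (hcon x hx y hy)⟩
  obtain ⟨M₁, hM₁, hp1⟩ := ext1 (G := G) hp
  obtain ⟨M₂, hM₂, hq2⟩ := ext1 (G := G) hq
  have n12 : M₁ ≠ M₂ := by
    rintro rfl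
    exact hM₁.2.1 p hp1 q hq2 hpq
  have cone : ∀ A B C : Finset V, Mis G W A → Mis G W B → Mis G W C → A ≠ B → A ≠ C → B ≠ C →
      ∀ p ∈ A, ∀ q ∈ B, ∀ r ∈ C, Dom G W {p} → SC G W := by
    intro A B C hA hB hC nAB nAC nBC p hp q hq r hr hd
    have pB := hdis A B hA hB nAB p hp
    have pC := hdis A C hA hC nAC p hp
    have qC := hdis B C hB hC nBC q hq
    have rB := hdis C B hC hB nBC.symm r hr
    have aPB : ∀ m ∈ B, G.Adj p m := fun m hm => hadj A hA p hp m (hB.1 hm)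
      (hdis B A hB hA nAB.symm m hm)
    have aPC : ∀ m ∈ C, G.Adj p m := fun m hm => hadj A hA p hp m (hC.1 hm)
      (hdis C A hC hA nAC.symm m hm)
    have aQC : ∀ m ∈ C, G.Adj q m := fun m hm => hadj B hB q hq m (hC.1 hm)
      (hdis C B hC hB nBC.symm m hm)
    have aRB : ∀ m ∈ B, G.Adj r m := fun m hm => hadj C hC r hr m (hB.1 hm)
      (hdis B C hB hC nBC m hm)
    have mp := md_single (hA.1 hp) hd
    by_cases hdq : Dom G W {q}
    · refine Or.inl ⟨{p}, {q}, C, mp, md_single (hB.1 hq) hdq, hC.md, ?_,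
        ar_single qC aQC, (ar_single pC aPC).symm⟩
      refine ar_single ?_ ?_
      · rw [Finset.mem_singleton]
        rintro rfl
        exact pB hq
      · intro m hm
        rw [Finset.mem_singleton] at hm
        rw [hm]
        exact aPB q hq
    · by_cases hdr : Dom G W {r}
      · refine Or.inl ⟨{p}, {r}, B, mp, md_single (hC.1 hr) hdr, hB.md, ?_,
          ar_single rB aRB, (ar_single pB aPB).symm⟩
        refine ar_single ?_ ?_
        · rw [Finset.mem_singleton]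
          rintro rfl
          exact pC hr
        · intro m hm
          rw [Finset.mem_singleton] at hm
          rw [hm]
          exact aPC r hr
      · have hqr : MD G W {q, r} := by
          refine md_pair (hB.1 hq) (hC.1 hr) (fun h' => qC (h' ▸ hr)) ?_ hdq hdr
          intro z hz
          by_cases hzB : z ∈ B
          · exact Or.inr ⟨r, Finset.mem_insert_of_mem (Finset.mem_singleton_self _), aRB z hzB⟩
          · exact Or.inr ⟨q, Finset.mem_insert_self _ _, hadj B hB q hq z hz hzB⟩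
        refine Or.inl ⟨{p}, {q, r}, B, mp, hqr, hB.md, ?_, ar_pair hq rB (fun m hm _ => aRB m hm),
          (ar_single pB aPB).symm⟩
        refine ar_single ?_ ?_
        · rw [Finset.mem_insert, Finset.mem_singleton]
          rintro (rfl | rfl)
          · exact pB hq
          · exact pC hr
        · intro m hm
          rw [Finset.mem_insert, Finset.mem_singleton] at hm
          rcases hm with rfl | rfl
          · exact aPB _ hq
          · exact aPC _ hr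
  by_cases hex : ∃ r ∈ W, r ∉ M₁ ∧ r ∉ M₂
  · obtain ⟨r, hr, hr1, hr2⟩ := hex
    obtain ⟨M₃, hM₃, hr3⟩ := ext1 (G := G) hr
    have n31 : M₃ ≠ M₁ := hneq hr3 hr1
    have n32 : M₃ ≠ M₂ := hneq hr3 hr2
    by_cases hdp : Dom G W {p}
    · exact cone M₁ M₂ M₃ hM₁ hM₂ hM₃ n12 n31.symm n32.symm p hp1 q hq2 r hr3 hdp
    by_cases hdq : Dom G W {q}
    · exact cone M₂ M₁ M₃ hM₂ hM₁ hM₃ n12.symm n32.symm n31.symm q hq2 p hp1 r hr3 hdq
    by_cases hdr : Dom G W {r}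
    · exact cone M₃ M₁ M₂ hM₃ hM₁ hM₂ n31 n32 n12 r hr3 p hp1 q hq2 hdr
    have pair : ∀ A B : Finset V, Mis G W A → Mis G W B → A ≠ B → ∀ a ∈ A, ∀ b ∈ B,
        ¬ Dom G W {a} → ¬ Dom G W {b} → MD G W {a, b} := by
      intro A B hA hB nAB a ha b hb hda hdb
      refine md_pair (hA.1 ha) (hB.1 hb) ?_ ?_ hda hdb
      · rintro rfl
        exact hdis A B hA hB nAB a ha hb
      · intro z hz
        by_cases hzA : z ∈ A
        · exact Or.inr ⟨b, Finset.mem_insert_of_mem (Finset.mem_singleton_self _),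
            hadj B hB b hb z hz (hdis A B hA hB nAB z hzA)⟩
        · exact Or.inr ⟨a, Finset.mem_insert_self _ _, hadj A hA a ha z hz hzA⟩
    have adj2 : ∀ a b c : V, a ≠ b → a ≠ c → G.Adj a c → AR G {b, a} {b, c} := by
      intro a b c hab hac hadj
      refine ar_pair (Finset.mem_insert_self _ _) ?_ ?_
      · rw [Finset.mem_insert, Finset.mem_singleton]
        rintro (h' | h')
        · exact hab h'
        · exact hac h'
      · intro m hm hmb
        rw [Finset.mem_insert, Finset.mem_singleton] at hm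
        rcases hm with h' | h'
        · exact absurd h' hmb
        · rw [h']
          exact hadj
    have apr := hadj M₁ hM₁ p hp1 r hr hr1
    have aqr := hadj M₂ hM₂ q hq2 r hr hr2
    have npq : p ≠ q := hpq.ne
    have npr : p ≠ r := apr.ne
    have nqr : q ≠ r := aqr.ne
    refine Or.inl ⟨{q, p}, {q, r}, {p, r}, ?_, pair M₂ M₃ hM₂ hM₃ n32.symm q hq2 r hr3 hdq hdr,
      pair M₁ M₃ hM₁ hM₃ n31.symm p hp1 r hr3 hdp hdr, adj2 p q r npq npr apr, ?_, ?_⟩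
    · rw [Finset.pair_comm]
      exact pair M₁ M₂ hM₁ hM₂ n12 p hp1 q hq2 hdp hdq
    · rw [Finset.pair_comm q r, Finset.pair_comm p r]
      exact adj2 q r p nqr npq.symm hpq.symm
    · rw [Finset.pair_comm q p]
      exact adj2 r p q npr.symm nqr.symm aqr.symm
  · push Not at hex
    obtain ⟨p', hp', hpp⟩ : ∃ p' ∈ M₁, p' ≠ p := by
      by_contra hcon
      push Not at hcon
      apply hF
      refine ⟨p, fun a ha b hb hab => ?_⟩
      by_cases ha1 : a ∈ M₁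
      · exact Or.inl (hcon a ha1)
      · by_cases hb1 : b ∈ M₁
        · exact Or.inr (hcon b hb1)
        · exact absurd hab (hM₂.2.1 a (hex a ha ha1) b (hex b hb hb1))
    obtain ⟨q', hq', hqq⟩ : ∃ q' ∈ M₂, q' ≠ q := by
      by_contra hcon
      push Not at hcon
      apply hF
      refine ⟨q, fun a ha b hb hab => ?_⟩
      by_cases ha1 : a ∈ M₂
      · exact Or.inl (hcon a ha1)
      · by_cases hb1 : b ∈ M₂
        · exact Or.inr (hcon b hb1)
        · have ha2 : a ∈ M₁ := by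
            by_contra h'
            exact ha1 (hex a ha h')
          have hb2 : b ∈ M₁ := by
            by_contra h'
            exact hb1 (hex b hb h')
          exact absurd hab (hM₁.2.1 a ha2 b hb2)
    have d12 : ∀ z ∈ M₁, z ∉ M₂ := hdis _ _ hM₁ hM₂ n12
    have d21 : ∀ z ∈ M₂, z ∉ M₁ := hdis _ _ hM₂ hM₁ n12.symm
    have pair : ∀ a ∈ M₁, ∀ b ∈ M₂, ∀ a' ∈ M₁, ∀ b' ∈ M₂, a' ≠ a → b' ≠ b → MD G W {a, b} := by
      intro a ha b hb a' ha' b' hb' haa hbb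
      refine md_pair (hM₁.1 ha) (hM₂.1 hb) ?_ ?_ ?_ ?_
      · rintro rfl
        exact d12 a ha hb
      · intro z hz
        by_cases hz1 : z ∈ M₁
        · exact Or.inr ⟨b, Finset.mem_insert_of_mem (Finset.mem_singleton_self _),
            hadj M₂ hM₂ b hb z hz (d12 z hz1)⟩
        · exact Or.inr ⟨a, Finset.mem_insert_self _ _, hadj M₁ hM₁ a ha z hz hz1⟩
      · intro h'
        rcases h' a' (hM₁.1 ha') with h1 | ⟨z, hz, h1⟩
        · rw [Finset.mem_singleton] at h1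
          exact haa h1
        · rw [Finset.mem_singleton] at hz
          rw [hz] at h1
          exact hM₁.2.1 a ha a' ha' h1
      · intro h'
        rcases h' b' (hM₂.1 hb') with h1 | ⟨z, hz, h1⟩
        · rw [Finset.mem_singleton] at h1
          exact hbb h1
        · rw [Finset.mem_singleton] at hz
          rw [hz] at h1
          exact hM₂.2.1 b hb b' hb' h1
    have r1 : ∀ a ∈ M₁, ∀ b ∈ M₂, AR G {a, b} M₁ := fun a ha b hb =>
      ar_pair ha (d21 b hb) (fun m hm _ => hadj M₂ hM₂ b hb m (hM₁.1 hm) (d12 m hm))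
    have r2 : ∀ a ∈ M₁, ∀ b ∈ M₂, AR G {a, b} M₂ := by
      intro a ha b hb
      rw [Finset.pair_comm]
      exact ar_pair hb (d12 a ha) (fun m hm _ => hadj M₁ hM₁ a ha m (hM₂.1 hm) (d21 m hm))
    refine Or.inr (Or.inl ⟨M₁, {p, q}, M₂, {p', q'}, hM₁.md,
      pair p hp1 q hq2 p' hp' q' hq' hpp hqq, hM₂.md,
      pair p' hp' q' hq' p hp1 q hq2 hpp.symm hqq.symm, (r1 p hp1 q hq2).symm, r2 p hp1 q hq2,
      (r2 p' hp' q' hq').symm, r1 p' hp' q' hq', n12, ?_⟩)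
    intro h'
    have h1 : p ∈ ({p', q'} : Finset V) := h' ▸ Finset.mem_insert_self _ _
    rw [Finset.mem_insert, Finset.mem_singleton] at h1
    rcases h1 with h1 | h1
    · exact hpp h1.symm
    · exact d12 p hp1 (h1 ▸ hq')

/-- the main result -/
theorem short_cycle [Nonempty V] : ∀ (t : ℕ) (W : Finset V), W.card = t → ¬ InF G W → SC G W := by
  classical
  intro t
  induction t using Nat.strong_induction_on with
  | _ t ih =>
    intro W ht hF
    by_cases hw : ∀ w ∈ W, InF G (W.filter fun y => y ≠ w ∧ ¬ G.Adj w y)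
    · have h := min_of hw
      by_cases hdis : ∀ M M', Mis G W M → Mis G W M' → M ≠ M' → ∀ w ∈ M, w ∉ M'
      · exact caseC hF hdis
      · push Not at hdis
        obtain ⟨M₁, M₂, hM₁, hM₂, n12, x, hx1, hx2⟩ := hdis
        by_cases hno : ∀ M₃, Mis G W M₃ → M₃ ≠ M₁ → M₃ ≠ M₂ → ∀ z ∈ M₃, z ∉ M₁ ∧ z ∉ M₂
        · exact caseB h hF hw hM₁ hM₂ n12 hx1 hx2 hno
        · push Not at hno
          obtain ⟨M₃, hM₃, n31, n32, z, hz3, hz⟩ := hno
          by_cases hz1 : z ∈ M₁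
          · exact caseA h hM₂ hM₁ hM₃ n12.symm n31.symm n32.symm hx2 hx1 hz1 hz3
          · exact caseA h hM₁ hM₂ hM₃ n12 n32.symm n31.symm hx1 hx2 (hz hz1) hz3
    · push Not at hw
      obtain ⟨w, hw1, hw2⟩ := hw
      refine SC.lift hw1 (ih _ ?_ _ rfl hw2)
      rw [← ht]
      refine Finset.card_lt_card (Finset.ssubset_iff_subset_ne.mpr ⟨Finset.filter_subset _ _, ?_⟩)
      intro h'
      have := h' ▸ hw1
      exact (Finset.mem_filter.mp this).2.1 rfl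

end Pool.Agent.X51.Rec
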